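import Mathlib

/-!
# A continuous selection in the slices of a compact convex set

`C` is a compact convex symmetric set and `σ` a continuous functional with `σ(C) = [-1, 1]`. The
minimum of a strictly convex function on the slice `C ∩ {σ = s}` depends continuously on `s` and on
the function.
-/

set_option autoImplicit false

open Set Filter Topology

namespace Pool.Agent.H24.SG

lemma continuous_of_closed_rel {P Y : Type*} [TopologicalSpace P] [TopologicalSpace Y]
    [CompactSpace Y] (R : P → Y) (G : Set (P × Y)) (hG : IsClosed G)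
    (hRG : ∀ p, (p, R p) ∈ G) (huniq : ∀ p y, (p, y) ∈ G → y = R p) : Continuous R := by
  rw [continuous_iff_ultrafilter]
  intro p U hU
  obtain ⟨y, -, hy⟩ := (isCompact_univ : IsCompact (univ : Set Y)).ultrafilter_le_nhds (U.map R)
    (by rw [le_principal_iff]; exact Filter.univ_mem)
  have ht : Tendsto (fun q => (q, R q)) U (𝓝 (p, y)) := Tendsto.prodMk_nhds hU hy
  have h1 := hG.mem_of_tendsto ht (Eventually.of_forall hRG)
  rw [← huniq p y h1]
  exact hy

section
variable {V : Type*} [AddCommGroup V] [Module ℝ V]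

/-- the path from `-h₀` through `q` to `h₀`, parametrised by the functional -/
noncomputable def path (σ : V →ₗ[ℝ] ℝ) (h₀ q : V) (s : ℝ) : V :=
  q + (max (s - σ q) 0 / (1 - σ q)) • (h₀ - q) + (max (σ q - s) 0 / (1 + σ q)) • (-h₀ - q)

lemma continuous_path [TopologicalSpace V] [ContinuousAdd V] [ContinuousSMul ℝ V]
    (σ : V →ₗ[ℝ] ℝ) (h₀ q : V) : Continuous (path σ h₀ q) := by
  unfold path
  fun_prop

lemma path_self (σ : V →ₗ[ℝ] ℝ) (h₀ q : V) : path σ h₀ q (σ q) = q := by
  simp [path]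

lemma sigma_path (σ : V →ₗ[ℝ] ℝ) {h₀ q : V} (hh₀ : σ h₀ = 1) {s : ℝ}
    (hs : |s| ≤ 1) : σ (path σ h₀ q s) = s := by
  rw [abs_le] at hs
  have e : σ (path σ h₀ q s) = σ q + max (s - σ q) 0 / (1 - σ q) * (1 - σ q)
      - max (σ q - s) 0 / (1 + σ q) * (1 + σ q) := by
    simp only [path, map_add, map_smul, map_sub, map_neg, hh₀, smul_eq_mul]
    ring
  rw [e]
  have e1 : max (s - σ q) 0 / (1 - σ q) * (1 - σ q) = max (s - σ q) 0 := by
    rcases eq_or_ne (1 - σ q) 0 with h | h
    · rw [h, mul_zero, max_eq_right (by linarith)]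
    · exact div_mul_cancel₀ _ h
  have e2 : max (σ q - s) 0 / (1 + σ q) * (1 + σ q) = max (σ q - s) 0 := by
    rcases eq_or_ne (1 + σ q) 0 with h | h
    · rw [h, mul_zero, max_eq_right (by linarith)]
    · exact div_mul_cancel₀ _ h
  rw [e1, e2]
  rcases le_total s (σ q) with h | h
  · rw [max_eq_right (by linarith), max_eq_left (by linarith)]; ring
  · rw [max_eq_left (by linarith), max_eq_right (by linarith)]; ring

lemma path_mem (σ : V →ₗ[ℝ] ℝ) {C : Set V} (hconv : Convex ℝ C) {h₀ q : V} (h₀C : h₀ ∈ C)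
    (h₀C' : -h₀ ∈ C) (hqC : q ∈ C) (hq : |σ q| ≤ 1) {s : ℝ} (hs : |s| ≤ 1) :
    path σ h₀ q s ∈ C := by
  rw [abs_le] at hq hs
  unfold path
  rcases le_total s (σ q) with h | h
  · rw [max_eq_right (a := s - σ q) (by linarith), max_eq_left (a := σ q - s) (by linarith),
      zero_div, zero_smul, add_zero]
    have h1 : 0 ≤ (σ q - s) / (1 + σ q) := div_nonneg (by linarith) (by linarith)
    have h2 : (σ q - s) / (1 + σ q) ≤ 1 := div_le_one_of_le₀ (by linarith) (by linarith)
    exact hconv.add_smul_sub_mem hqC h₀C' ⟨h1, h2⟩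
  · rw [max_eq_left (a := s - σ q) (by linarith), max_eq_right (a := σ q - s) (by linarith),
      zero_div, zero_smul, add_zero]
    have h1 : 0 ≤ (s - σ q) / (1 - σ q) := div_nonneg (by linarith) (by linarith)
    have h2 : (s - σ q) / (1 - σ q) ≤ 1 := div_le_one_of_le₀ (by linarith) (by linarith)
    exact hconv.add_smul_sub_mem hqC h₀C ⟨h1, h2⟩

/-- The minimum of the strictly convex function `D z` on the slice `{h ∈ C | σ h = s}` depends
continuously on `s ∈ [-1, 1]` and on the parameter `z`. -/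
theorem exists_slice_selection [TopologicalSpace V] [ContinuousAdd V] [ContinuousSMul ℝ V]
    {Z : Type*} [TopologicalSpace Z] (C : Set V) (hC : IsCompact C)
    (hconv : Convex ℝ C) (hsymm : ∀ h ∈ C, -h ∈ C) (σ : V →ₗ[ℝ] ℝ) (hσc : Continuous σ)
    (hσ : ∀ h ∈ C, |σ h| ≤ 1) (h₀ : V) (h₀C : h₀ ∈ C) (hh₀ : σ h₀ = 1) (D : Z → C → ℝ)
    (hD : Continuous fun p : Z × C => D p.1 p.2)
    (hstrict : ∀ (z : Z) (a b m : C), a ≠ b → (m : V) = (1/2:ℝ) • (a:V) + (1/2:ℝ) • (b:V) →
      D z m < max (D z a) (D z b)) (ν : Z → Z)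
    (hν : ∀ (z : Z) (a b : C), (b : V) = -a → D (ν z) b = D z a) :
    ∃ R : Icc (-1:ℝ) 1 × Z → C, Continuous R ∧ (∀ p, σ (R p) = p.1) ∧
      (∀ (p : Icc (-1:ℝ) 1 × Z) (y : C), σ y = p.1 → D p.2 y ≤ D p.2 (R p) → y = R p) ∧
      (∀ s t : Icc (-1:ℝ) 1, (t:ℝ) = -s → ∀ z, (R (t, ν z) : V) = - R (s, z)) := by
  have : CompactSpace C := isCompact_iff_compactSpace.1 hC
  have habs : ∀ s : Icc (-1:ℝ) 1, |(s:ℝ)| ≤ 1 := fun s => abs_le.2 s.2
  let pa : C → Icc (-1:ℝ) 1 → C := fun q s =>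
    ⟨path σ h₀ q s, path_mem σ hconv h₀C (hsymm _ h₀C) q.2 (hσ _ q.2) (habs s)⟩
  have hpa : ∀ q, Continuous (pa q) := fun q =>
    Continuous.subtype_mk ((continuous_path σ h₀ q).comp continuous_subtype_val) _
  have hpaσ : ∀ q s, σ (pa q s) = s := fun q s => sigma_path σ hh₀ (habs s)
  have hσC : Continuous fun y : C => σ y := hσc.comp continuous_subtype_val
  have hex : ∀ p : Icc (-1:ℝ) 1 × Z, ∃ y : C, σ y = p.1 ∧ ∀ z : C, σ z = p.1 →
      D p.2 y ≤ D p.2 z := by
    intro p
    have hcomp : IsCompact {y : C | σ y = p.1} :=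
      (isClosed_eq hσC continuous_const).isCompact
    obtain ⟨y, hy, hy2⟩ := hcomp.exists_isMinOn ⟨pa ⟨h₀, h₀C⟩ p.1, hpaσ _ _⟩
      (f := fun y => D p.2 y) (hD.comp (by fun_prop : Continuous fun y : C => (p.2, y))).continuousOn
    exact ⟨y, hy, fun z hz => hy2 hz⟩
  choose R hR hRmin using hex
  have huniq : ∀ (p : Icc (-1:ℝ) 1 × Z) (y : C), σ y = p.1 → D p.2 y ≤ D p.2 (R p) →
      y = R p := by
    intro p y hy hle
    by_contra hne
    have hm : (1/2:ℝ) • (y:V) + (1/2:ℝ) • ((R p : C) : V) ∈ C :=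
      hconv y.2 (R p).2 (by norm_num) (by norm_num) (by norm_num)
    have h1 := hstrict p.2 y (R p) ⟨_, hm⟩ hne rfl
    rw [max_eq_right hle] at h1
    refine absurd (hRmin p ⟨_, hm⟩ ?_) (not_le.2 h1)
    change σ ((1/2:ℝ) • (y:V) + (1/2:ℝ) • ((R p : C) : V)) = p.1
    rw [map_add, map_smul, map_smul, hy, hR, ← add_smul]
    norm_num
  refine ⟨R, ?_, hR, huniq, ?_⟩
  · refine continuous_of_closed_rel R
      ({z : (Icc (-1:ℝ) 1 × Z) × C | σ z.2 = z.1.1} ∩
        ⋂ q : C, {z : (Icc (-1:ℝ) 1 × Z) × C | D z.1.2 z.2 ≤ D z.1.2 (pa q z.1.1)}) ?_ ?_ ?_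
    · refine IsClosed.inter ?_ (isClosed_iInter fun q => isClosed_le ?_ ?_)
      · exact isClosed_eq (hσC.comp continuous_snd)
          (continuous_subtype_val.comp (continuous_fst.comp continuous_fst))
      · exact hD.comp ((continuous_snd.comp continuous_fst).prodMk continuous_snd)
      · exact hD.comp ((continuous_snd.comp continuous_fst).prodMk
          ((hpa q).comp (continuous_fst.comp continuous_fst)))
    · intro p
      refine ⟨hR p, mem_iInter.2 fun q => ?_⟩
      exact hRmin p _ (hpaσ q p.1)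
    · rintro p y ⟨h1, h2⟩
      refine huniq p y h1 ?_
      have h3 := mem_iInter.1 h2 (R p)
      change D p.2 y ≤ D p.2 (pa (R p) p.1) at h3
      have h4 : pa (R p) p.1 = R p := by
        apply Subtype.ext
        change path σ h₀ (R p) p.1 = R p
        rw [← hR p, path_self]
      rwa [h4] at h3
  · intro s t hst z
    have hneg : ∀ y : C, -(y:V) ∈ C := fun y => hsymm _ y.2
    let a : C := ⟨-(R (s, z) : V), hneg _⟩
    let b : C := ⟨-(R (t, ν z) : V), hneg _⟩
    have h1 : σ a = t := by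
      change σ (-(R (s, z) : V)) = t
      rw [map_neg, hR, hst]
    have h2 : σ b = s := by
      change σ (-(R (t, ν z) : V)) = s
      rw [map_neg, hR]
      change -(t:ℝ) = s
      rw [hst, neg_neg]
    have h3 := hRmin (s, z) b h2
    have h4 : D (ν z) a = D z (R (s, z)) := hν z (R (s, z)) a rfl
    have h5 : D (ν z) (R (t, ν z)) = D z b := hν z b (R (t, ν z)) (by
      change (R (t, ν z) : V) = -(-(R (t, ν z) : V))
      rw [neg_neg])
    have h6 := huniq (t, ν z) a h1 (by
      change D (ν z) a ≤ D (ν z) (R (t, ν z))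
      rw [h4, h5]
      exact h3)
    rw [← h6]

end

end Pool.Agent.H24.SG
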