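import Mathlib
import Pool.Agent.H24.SG.Slice

/-!
# The space of the odd continuous functions on a cube

For an uncountable set `Γ` every vector of norm one of the space of the odd continuous functions on
`[-1, 1]^Γ` lies in an isometric copy of every finite dimensional space, in every position.
-/

set_option autoImplicit false

open Set Filter Topology Uniformity

namespace Pool.Agent.H24.SG

/-- The cube `[-1, 1]^Γ`. -/
abbrev Cube (Γ : Type*) := Γ → Icc (-1:ℝ) 1

/-- The reflection of the interval. -/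
def negI (t : Icc (-1:ℝ) 1) : Icc (-1:ℝ) 1 :=
  ⟨-(t:ℝ), ⟨by linarith [t.2.2], by linarith [t.2.1]⟩⟩

instance : PreconnectedSpace (Icc (-1:ℝ) 1) := Subtype.preconnectedSpace isPreconnected_Icc

variable {Γ : Type*}

/-- The reflection of the cube at the origin. -/
def neg (k : Cube Γ) : Cube Γ := fun i => negI (k i)

lemma continuous_negI : Continuous negI := by
  unfold negI
  fun_prop

lemma continuous_neg : Continuous (neg : Cube Γ → Cube Γ) :=
  continuous_pi fun i => continuous_negI.comp (continuous_apply i)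

lemma neg_neg (k : Cube Γ) : neg (neg k) = k := by
  funext i
  apply Subtype.ext
  simp [neg, negI]

/-- The Banach space of the odd continuous functions on the cube `[-1, 1]^Γ`, with the maximum
norm. -/
def OddC (Γ : Type*) : Submodule ℝ C(Cube Γ, ℝ) where
  carrier := {f | ∀ k, f (neg k) = -f k}
  add_mem' := by
    intro f g hf hg k
    rw [ContinuousMap.add_apply, ContinuousMap.add_apply, hf, hg]
    ring
  zero_mem' := by
    intro k
    simp
  smul_mem' := by
    intro c f hf k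
    rw [ContinuousMap.smul_apply, ContinuousMap.smul_apply, hf, smul_neg]

lemma mem_oddC {f : C(Cube Γ, ℝ)} : f ∈ OddC Γ ↔ ∀ k, f (neg k) = -f k := Iff.rfl

lemma isClosed_oddC : IsClosed (OddC Γ : Set C(Cube Γ, ℝ)) := by
  have : (OddC Γ : Set C(Cube Γ, ℝ)) = ⋂ k, {f | f (neg k) = -f k} := by
    ext f
    simp [mem_oddC]
  rw [this]
  refine isClosed_iInter fun k => isClosed_eq ?_ ?_
  · exact continuous_eval_const _
  · exact (continuous_eval_const _).neg

instance : CompleteSpace (OddC Γ) := isClosed_oddC.completeSpace_coe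

/-- A continuous function on the cube depends, up to `ε`, on finitely many coordinates only. -/
lemma exists_finset (f : C(Cube Γ, ℝ)) {ε : ℝ} (hε : 0 < ε) :
    ∃ J : Finset Γ, ∀ k k' : Cube Γ, (∀ i ∈ J, k i = k' i) → |f k - f k'| < ε := by
  have h1 : UniformContinuous f := CompactSpace.uniformContinuous_of_continuous f.continuous
  have h2 : {p : Cube Γ × Cube Γ | dist (f p.1) (f p.2) < ε} ∈ 𝓤 (Cube Γ) :=
    h1 (Metric.dist_mem_uniformity hε)
  rw [Pi.uniformity, Filter.mem_iInf] at h2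
  obtain ⟨I, hI, V, hV, hU⟩ := h2
  refine ⟨hI.toFinset, fun k k' hk => ?_⟩
  have h3 : (k, k') ∈ {p : Cube Γ × Cube Γ | dist (f p.1) (f p.2) < ε} := by
    rw [hU, mem_iInter]
    intro i
    have h4 := hV i
    rw [Filter.mem_comap] at h4
    obtain ⟨W, hW, hWV⟩ := h4
    apply hWV
    have h5 : k i = k' i := hk i (hI.mem_toFinset.2 i.2)
    change (k i, k' i) ∈ W
    rw [h5]
    exact refl_mem_uniformity hW
  exact h3

/-- A continuous function on the cube depends on countably many coordinates only. -/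
lemma exists_countable (f : C(Cube Γ, ℝ)) :
    ∃ S : Set Γ, S.Countable ∧ ∀ k k' : Cube Γ, (∀ i ∈ S, k i = k' i) → f k = f k' := by
  choose J hJ using fun n : ℕ => exists_finset f (ε := 1 / ((n:ℝ) + 1)) (by positivity)
  refine ⟨⋃ n, (J n : Set Γ), countable_iUnion fun n => (J n).countable_toSet, fun k k' h => ?_⟩
  have h1 : ∀ n : ℕ, |f k - f k'| ≤ 1 / ((n:ℝ) + 1) := fun n =>
    (hJ n k k' fun i hi => h i (mem_iUnion.2 ⟨n, hi⟩)).le
  have h2 : |f k - f k'| ≤ 0 :=
    ge_of_tendsto' tendsto_one_div_add_atTop_nhds_zero_nat h1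
  exact sub_eq_zero.1 (abs_eq_zero.1 (le_antisymm h2 (abs_nonneg _)))

lemma exists_eq (x : OddC Γ) (hx : ‖x‖ = 1) (s : ℝ) (hs : |s| ≤ 1) : ∃ k, x.1 k = s := by
  obtain ⟨k₁, -, hk₁⟩ := (isCompact_univ : IsCompact (univ : Set (Cube Γ))).exists_isMaxOn
    ⟨fun _ => ⟨0, by norm_num⟩, mem_univ _⟩ (f := fun k => |x.1 k|)
    (by have := x.1.continuous; fun_prop)
  have h1 : ‖x.1‖ ≤ |x.1 k₁| := by
    rw [ContinuousMap.norm_le _ (abs_nonneg _)]
    intro k
    exact hk₁ (mem_univ k)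
  have h2 : 1 ≤ |x.1 k₁| := by
    calc (1:ℝ) = ‖x.1‖ := hx.symm
      _ ≤ _ := h1
  have h3 := x.2 k₁
  have h4 : (∃ a, x.1 a ≤ s) ∧ ∃ b, s ≤ x.1 b := by
    rw [abs_le] at hs
    rcases le_abs.1 h2 with h | h
    · exact ⟨⟨neg k₁, by rw [h3]; linarith⟩, ⟨k₁, by linarith⟩⟩
    · exact ⟨⟨k₁, by linarith⟩, ⟨neg k₁, by rw [h3]; linarith⟩⟩
  exact mem_range_of_exists_le_of_exists_ge x.1.continuous h4.1 h4.2

section Dual
variable {F : Type*} [NormedAddCommGroup F] [NormedSpace ℝ F]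

/-- the unit ball of the dual space -/
def DBall (F : Type*) [NormedAddCommGroup F] [NormedSpace ℝ F] : Set (WeakDual ℝ F) :=
  WeakDual.toStrongDual ⁻¹' Metric.closedBall (0 : StrongDual ℝ F) 1

lemma mem_dBall {φ : WeakDual ℝ F} : φ ∈ DBall F ↔ ∀ v, |φ v| ≤ ‖v‖ := by
  unfold DBall
  rw [mem_preimage, mem_closedBall_zero_iff]
  constructor
  · intro h v
    calc |φ v| = ‖(WeakDual.toStrongDual φ) v‖ := rfl
      _ ≤ ‖WeakDual.toStrongDual φ‖ * ‖v‖ := ContinuousLinearMap.le_opNorm _ _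
      _ ≤ 1 * ‖v‖ := by gcongr
      _ = ‖v‖ := one_mul _
  · intro h
    refine ContinuousLinearMap.opNorm_le_bound _ zero_le_one fun v => ?_
    rw [one_mul]
    exact h v

lemma isCompact_dBall : IsCompact (DBall F) := WeakDual.isCompact_closedBall _ _

lemma add_app (φ ψ : WeakDual ℝ F) (v : F) : (φ + ψ) v = φ v + ψ v := rfl
lemma smul_app (c : ℝ) (φ : WeakDual ℝ F) (v : F) : (c • φ) v = c * φ v := rfl
lemma neg_app (φ : WeakDual ℝ F) (v : F) : (-φ) v = -φ v := rfl

lemma neg_mem_dBall {φ : WeakDual ℝ F} (h : φ ∈ DBall F) : -φ ∈ DBall F := by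
  rw [mem_dBall] at h ⊢
  intro v
  rw [neg_app, abs_neg]
  exact h v

lemma convex_dBall : Convex ℝ (DBall F) := by
  intro φ hφ ψ hψ a b ha hb hab
  rw [mem_dBall] at hφ hψ ⊢
  intro v
  rw [add_app, smul_app, smul_app]
  calc |a * φ v + b * ψ v| ≤ |a * φ v| + |b * ψ v| := abs_add_le _ _
    _ = a * |φ v| + b * |ψ v| := by rw [abs_mul, abs_mul, abs_of_nonneg ha, abs_of_nonneg hb]
    _ ≤ a * ‖v‖ + b * ‖v‖ := by gcongr; exacts [hφ v, hψ v]
    _ = ‖v‖ := by rw [← add_mul, hab, one_mul]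

lemma exists_norming (v : F) : ∃ φ ∈ DBall F, φ v = ‖v‖ := by
  obtain ⟨φ, hφ, hφv⟩ := exists_dual_vector'' ℝ v
  refine ⟨StrongDual.toWeakDual φ, ?_, ?_⟩
  · rw [mem_dBall]
    intro w
    calc |φ w| = ‖φ w‖ := rfl
      _ ≤ ‖φ‖ * ‖w‖ := φ.le_opNorm w
      _ ≤ 1 * ‖w‖ := by gcongr
      _ = ‖w‖ := one_mul _
  · change φ v = ‖v‖
    rw [hφv]
    simp

variable (v : ℕ → F)

/-- the strictly convex functions -/
noncomputable def dd (z : ℕ → Icc (-1:ℝ) 1) (φ : DBall F) : ℝ :=
  ∑' i, (1/4:ℝ) ^ i * ((z i : ℝ) - φ.1 (v i)) ^ 2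

lemma summable_q : Summable fun i : ℕ => (1/4:ℝ) ^ i * 4 :=
  (summable_geometric_of_lt_one (by norm_num) (by norm_num)).mul_right _

variable {v}

lemma term_le (hv : ∀ i, ‖v i‖ ≤ 1) (z : ℕ → Icc (-1:ℝ) 1) (φ : DBall F) (i : ℕ) :
    ‖(1/4:ℝ) ^ i * ((z i : ℝ) - φ.1 (v i)) ^ 2‖ ≤ (1/4:ℝ) ^ i * 4 := by
  have h1 := (mem_dBall.1 φ.2 (v i)).trans (hv i)
  rw [abs_le] at h1
  have h2 := (z i).2
  rw [mem_Icc] at h2
  rw [Real.norm_of_nonneg (by positivity)]
  gcongr
  nlinarith

lemma summable_dd (hv : ∀ i, ‖v i‖ ≤ 1) (z : ℕ → Icc (-1:ℝ) 1) (φ : DBall F) :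
    Summable fun i => (1/4:ℝ) ^ i * ((z i : ℝ) - φ.1 (v i)) ^ 2 :=
  Summable.of_norm_bounded summable_q (term_le hv z φ)

lemma continuous_dd (hv : ∀ i, ‖v i‖ ≤ 1) :
    Continuous fun p : (ℕ → Icc (-1:ℝ) 1) × DBall F => dd v p.1 p.2 := by
  refine continuous_tsum (fun i => ?_) summable_q (fun i p => term_le hv p.1 p.2 i)
  have h1 : Continuous fun p : (ℕ → Icc (-1:ℝ) 1) × DBall F => (p.1 i : ℝ) :=
    continuous_subtype_val.comp ((continuous_apply i).comp continuous_fst)
  have h2 : Continuous fun p : (ℕ → Icc (-1:ℝ) 1) × DBall F => p.2.1 (v i) :=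
    (WeakDual.eval_continuous (v i)).comp (continuous_subtype_val.comp continuous_snd)
  exact continuous_const.mul ((h1.sub h2).pow 2)

lemma ext_of_dense (hd : ∀ φ ψ : DBall F, (∀ i, φ.1 (v i) = ψ.1 (v i)) → φ = ψ)
    (hv : ∀ i, ‖v i‖ ≤ 1) (z : ℕ → Icc (-1:ℝ) 1) (a b m : DBall F) (hab : a ≠ b)
    (hm : (m : WeakDual ℝ F) = (1/2:ℝ) • (a : WeakDual ℝ F) + (1/2:ℝ) • (b : WeakDual ℝ F)) :
    dd v z m < max (dd v z a) (dd v z b) := by
  obtain ⟨i, hi⟩ : ∃ i, a.1 (v i) ≠ b.1 (v i) := by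
    by_contra h
    push Not at h
    exact hab (hd a b h)
  have hmi : ∀ j, m.1 (v j) = (1/2) * a.1 (v j) + (1/2) * b.1 (v j) := by
    intro j
    rw [hm, add_app, smul_app, smul_app]
  have h1 : dd v z m < ∑' j, ((1/2:ℝ) * ((1/4:ℝ) ^ j * ((z j : ℝ) - a.1 (v j)) ^ 2) +
      (1/2:ℝ) * ((1/4:ℝ) ^ j * ((z j : ℝ) - b.1 (v j)) ^ 2)) := by
    refine Summable.tsum_lt_tsum (i := i) (fun j => ?_) ?_ (summable_dd hv z m)
      (((summable_dd hv z a).mul_left _).add ((summable_dd hv z b).mul_left _))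
    · rw [hmi]
      have h3 : (0:ℝ) < (1/4) ^ j := by positivity
      nlinarith [mul_nonneg h3.le (sq_nonneg (a.1 (v j) - b.1 (v j)))]
    · rw [hmi]
      have h3 : (0:ℝ) < (1/4) ^ i := by positivity
      have h4 : 0 < (a.1 (v i) - b.1 (v i)) ^ 2 := by
        have := sub_ne_zero.2 hi
        positivity
      nlinarith [mul_pos h3 h4]
  rw [((summable_dd hv z a).mul_left _).tsum_add ((summable_dd hv z b).mul_left _),
    tsum_mul_left, tsum_mul_left] at h1
  have h2 := le_max_left (dd v z a) (dd v z b)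
  have h3 := le_max_right (dd v z a) (dd v z b)
  change dd v z m < 1/2 * dd v z a + 1/2 * dd v z b at h1
  linarith

lemma dd_nonneg (z : ℕ → Icc (-1:ℝ) 1) (φ : DBall F) : 0 ≤ dd v z φ :=
  tsum_nonneg fun i => by positivity

end Dual

/-- **One-dimensional spaces.** Let `Γ` be uncountable, `F` a separable normed space and
`x₀ ∈ F` and `x` vectors of norm one. Then there is an isometric embedding of `F` in the space of
the odd continuous functions on `[-1, 1]^Γ` which maps `x₀` to `x`. -/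
theorem extend_one [Uncountable Γ] (x : OddC Γ) (hx : ‖x‖ = 1) (F : Type*) [NormedAddCommGroup F]
    [NormedSpace ℝ F] [TopologicalSpace.SeparableSpace F] (x₀ : F) (hx₀ : ‖x₀‖ = 1) :
    ∃ g : F →ₗᵢ[ℝ] OddC Γ, g x₀ = x := by
  classical
  -- a dense sequence in the unit ball
  have : SecondCountableTopology F := UniformSpace.secondCountable_of_separable F
  have : Nonempty (Metric.closedBall (0:F) 1) := ⟨⟨0, by simp⟩⟩
  obtain ⟨u, hu⟩ := TopologicalSpace.exists_dense_seq (Metric.closedBall (0:F) 1)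
  let v : ℕ → F := fun i => (u i : F)
  have hv : ∀ i, ‖v i‖ ≤ 1 := fun i => mem_closedBall_zero_iff.1 (u i).2
  have hd : ∀ φ ψ : DBall F, (∀ i, φ.1 (v i) = ψ.1 (v i)) → φ = ψ := by
    intro φ ψ h
    have h1 : Continuous fun w : Metric.closedBall (0:F) 1 => φ.1 (w:F) :=
      (WeakDual.toStrongDual φ.1).continuous.comp continuous_subtype_val
    have h2 : Continuous fun w : Metric.closedBall (0:F) 1 => ψ.1 (w:F) :=
      (WeakDual.toStrongDual ψ.1).continuous.comp continuous_subtype_val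
    have h3 : (fun w : Metric.closedBall (0:F) 1 => φ.1 (w:F)) =
        fun w : Metric.closedBall (0:F) 1 => ψ.1 (w:F) :=
      hu.equalizer h1 h2 (funext h)
    apply Subtype.ext
    apply DFunLike.ext
    intro w
    rcases eq_or_ne w 0 with rfl | hw
    · rw [map_zero, map_zero]
    · have hw' : ‖w‖ ≠ 0 := norm_ne_zero_iff.2 hw
      have h4 := congrFun h3 ⟨‖w‖⁻¹ • w, by
        rw [mem_closedBall_zero_iff, norm_smul, norm_inv, norm_norm, inv_mul_cancel₀ hw']⟩
      simp only [map_smul, smul_eq_mul] at h4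
      exact mul_left_cancel₀ (inv_ne_zero hw') h4
  let σ : WeakDual ℝ F →ₗ[ℝ] ℝ :=
    { toFun := fun φ => φ x₀
      map_add' := fun _ _ => rfl
      map_smul' := fun _ _ => rfl }
  have hσc : Continuous σ := WeakDual.eval_continuous x₀
  have hσ : ∀ h ∈ DBall F, |σ h| ≤ 1 := by
    intro φ hφ
    have := mem_dBall.1 hφ x₀
    rwa [hx₀] at this
  obtain ⟨φ₀, hφ₀, hφ₀x⟩ := exists_norming x₀
  obtain ⟨R, hRc, hRσ, hRid, hRneg⟩ :=
    exists_slice_selection (DBall F) isCompact_dBall convex_dBall (fun h => neg_mem_dBall) σ hσc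
      hσ φ₀ hφ₀ (hφ₀x.trans hx₀) (dd v) (continuous_dd hv) (ext_of_dense hd hv) neg (by
        intro z a b hab
        unfold dd
        refine tsum_congr fun i => ?_
        rw [hab, neg_app]
        simp only [neg, negI]
        ring)
  -- fresh coordinates
  obtain ⟨S, hS, hSx⟩ := exists_countable x.1
  have hinf : Infinite ↥Sᶜ := by
    rw [Set.infinite_coe_iff]
    intro hfin
    exact not_countable_univ (α := Γ) (by
      rw [← Set.union_compl_self S]
      exact hS.union hfin.countable)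
  let e : ℕ → Γ := fun j => (Infinite.natEmbedding ↥Sᶜ j : ↥Sᶜ)
  have he : Function.Injective e := by
    intro i j hij
    exact (Infinite.natEmbedding ↥Sᶜ).injective (Subtype.ext hij)
  have heS : ∀ j, e j ∉ S := fun j => (Infinite.natEmbedding ↥Sᶜ j : ↥Sᶜ).2
  let ι : Cube Γ → ℕ → Icc (-1:ℝ) 1 := fun k j => k (e j)
  have hιc : Continuous ι := continuous_pi fun j => continuous_apply (e j)
  have hιneg : ∀ k, ι (neg k) = neg (ι k) := fun k => rfl
  have hxI : ∀ k, x.1 k ∈ Icc (-1:ℝ) 1 := by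
    intro k
    have h1 := x.1.norm_coe_le_norm k
    have h2 : ‖x.1‖ = 1 := hx
    rw [h2, Real.norm_eq_abs] at h1
    exact abs_le.1 h1
  let xI : Cube Γ → Icc (-1:ℝ) 1 := fun k => ⟨x.1 k, hxI k⟩
  have hxIc : Continuous xI := Continuous.subtype_mk x.1.continuous _
  let Y : Cube Γ → DBall F := fun k => R (xI k, ι k)
  have hYc : Continuous Y := hRc.comp (hxIc.prodMk hιc)
  have hYneg : ∀ k, (Y (neg k) : WeakDual ℝ F) = -Y k := by
    intro k
    change (R (xI (neg k), ι (neg k)) : WeakDual ℝ F) = -R (xI k, ι k)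
    rw [hιneg]
    exact hRneg _ _ (x.2 k) _
  let G : F →ₗ[ℝ] OddC Γ :=
    { toFun := fun w => ⟨⟨fun k => (Y k).1 w,
          (WeakDual.eval_continuous w).comp (continuous_subtype_val.comp hYc)⟩, by
          intro k
          change (Y (neg k)).1 w = -((Y k).1 w)
          rw [hYneg]
          rfl⟩
      map_add' := by
        intro w w'
        apply Subtype.ext
        ext k
        exact map_add (Y k).1 w w'
      map_smul' := by
        intro c w
        apply Subtype.ext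
        ext k
        exact map_smul (Y k).1 c w }
  have hGk : ∀ w k, (G w).1 k = (Y k).1 w := fun w k => rfl
  have hG : ∀ w, ‖G w‖ = ‖w‖ := by
    intro w
    apply le_antisymm
    · change ‖(G w).1‖ ≤ ‖w‖
      rw [ContinuousMap.norm_le _ (norm_nonneg _)]
      intro k
      rw [hGk]
      exact mem_dBall.1 (Y k).2 w
    · obtain ⟨φ, hφ, hφw⟩ := exists_norming w
      obtain ⟨k', hk'⟩ := exists_eq x hx (φ x₀) (hσ φ hφ)
      let k : Cube Γ := Function.extend e (fun j => ⟨φ (v j), by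
        have h1 := (mem_dBall.1 hφ (v j)).trans (hv j)
        exact abs_le.1 h1⟩) k'
      have hk1 : ∀ j, ((ι k j : Icc (-1:ℝ) 1) : ℝ) = φ (v j) := by
        intro j
        simp only [k, ι]
        rw [he.extend_apply]
      have hk2 : ∀ i ∈ S, k i = k' i := by
        intro i hi
        simp only [k]
        apply Function.extend_apply'
        rintro ⟨j, rfl⟩
        exact heS j hi
      have hxk : x.1 k = φ x₀ := by
        rw [hSx k k' hk2, hk']
      have hYk : ⟨φ, hφ⟩ = Y k := by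
        refine hRid (xI k, ι k) ⟨φ, hφ⟩ hxk.symm ?_
        have h1 : dd v (ι k) ⟨φ, hφ⟩ = 0 := by
          unfold dd
          have : ∀ i, (1/4:ℝ) ^ i * (((ι k i : Icc (-1:ℝ) 1) : ℝ) - φ (v i)) ^ 2 = 0 := by
            intro i
            rw [hk1, sub_self]
            simp
          simp_rw [this]
          exact tsum_zero
        change dd v (ι k) ⟨φ, hφ⟩ ≤ _
        rw [h1]
        exact dd_nonneg _ _
      have h2 := (G w).1.norm_coe_le_norm k
      rw [hGk, ← hYk, hφw] at h2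
      simpa using h2
  refine ⟨⟨G, hG⟩, ?_⟩
  apply Subtype.ext
  ext k
  change (G x₀).1 k = x.1 k
  rw [hGk]
  exact hRσ (xI k, ι k)

end Pool.Agent.H24.SG
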