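import Mathlib

/-!
# Spaces of universal disposition in small dimensions: definitions
-/

set_option autoImplicit false

open Set Cardinal

universe u

namespace Pool.Agent.H24.SG

/-- The density of a topological space: the least cardinality of a dense subset. -/
noncomputable def density (X : Type u) [TopologicalSpace X] : Cardinal.{u} :=
  sInf {κ : Cardinal.{u} | ∃ D : Set X, Dense D ∧ #D = κ}

/-- A real normed space `X` is a strong Gurarii space: for every finite dimensional real normed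
space `F`, every linear subspace `E` of `F` and every isometric linear embedding `f : E → X` there
is an isometric linear embedding `g : F → X` which extends `f`. -/
def StrongGurarii (X : Type u) [NormedAddCommGroup X] [NormedSpace ℝ X] : Prop :=
  ∀ (F : Type) [NormedAddCommGroup F] [NormedSpace ℝ F] [FiniteDimensional ℝ F]
    (E : Submodule ℝ F) (f : E →ₗᵢ[ℝ] X), ∃ g : F →ₗᵢ[ℝ] X, ∀ x : E, g (x : F) = f x

/-- The same for the pairs `E ⊆ F` with `dim E ≤ m` and `dim F ≤ n` only. -/
def Disp (m n : ℕ) (X : Type u) [NormedAddCommGroup X] [NormedSpace ℝ X] : Prop :=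
  ∀ (F : Type) [NormedAddCommGroup F] [NormedSpace ℝ F] [FiniteDimensional ℝ F]
    (E : Submodule ℝ F) (f : E →ₗᵢ[ℝ] X), Module.finrank ℝ E ≤ m → Module.finrank ℝ F ≤ n →
      ∃ g : F →ₗᵢ[ℝ] X, ∀ x : E, g (x : F) = f x

/-- The same for the pairs `E ⊆ F` with `dim E ≤ m` and `F` separable, possibly of infinite
dimension. -/
def DispSep (m : ℕ) (X : Type u) [NormedAddCommGroup X] [NormedSpace ℝ X] : Prop :=
  ∀ (F : Type) [NormedAddCommGroup F] [NormedSpace ℝ F] [TopologicalSpace.SeparableSpace F]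
    (E : Submodule ℝ F) [FiniteDimensional ℝ E] (f : E →ₗᵢ[ℝ] X), Module.finrank ℝ E ≤ m →
      ∃ g : F →ₗᵢ[ℝ] X, ∀ x : E, g (x : F) = f x

lemma density_le {X : Type u} [TopologicalSpace X] {D : Set X} (hD : Dense D) : density X ≤ #D :=
  csInf_le' ⟨D, hD, rfl⟩

lemma le_density {X : Type u} [TopologicalSpace X] {κ : Cardinal.{u}}
    (h : ∀ D : Set X, Dense D → κ ≤ #D) : κ ≤ density X := by
  apply le_csInf
  · exact ⟨_, Set.univ, dense_univ, rfl⟩
  · rintro _ ⟨D, hD, rfl⟩
    exact h D hD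

variable {X : Type u} [NormedAddCommGroup X] [NormedSpace ℝ X]

lemma StrongGurarii.disp (h : StrongGurarii X) (m n : ℕ) : Disp m n X :=
  fun F _ _ _ E f _ _ => h F E f

lemma DispSep.disp {m : ℕ} (h : DispSep m X) (n : ℕ) : Disp m n X := by
  intro F _ _ _ E f hE _
  have : ProperSpace F := FiniteDimensional.proper ℝ F
  exact h F E f hE

lemma Disp.extend {m n : ℕ} (hX : Disp m n X) {E F : Type} [NormedAddCommGroup E]
    [NormedSpace ℝ E] [NormedAddCommGroup F] [NormedSpace ℝ F] [FiniteDimensional ℝ F]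
    (i : E →ₗᵢ[ℝ] F) (f : E →ₗᵢ[ℝ] X) (hE : Module.finrank ℝ E ≤ m)
    (hF : Module.finrank ℝ F ≤ n) : ∃ g : F →ₗᵢ[ℝ] X, ∀ x : E, g (i x) = f x := by
  obtain ⟨g, hg⟩ := hX F (LinearMap.range i.toLinearMap)
    (f.comp i.equivRange.symm.toLinearIsometry)
    (by rw [← i.equivRange.toLinearEquiv.finrank_eq]; exact hE) hF
  refine ⟨g, fun x => ?_⟩
  have h := hg (i.equivRange x)
  have h2 : ((i.equivRange x : LinearMap.range i.toLinearMap) : F) = i x := rfl
  rw [h2] at h
  rw [h]
  simp

end Pool.Agent.H24.SG
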