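import Mathlib
import Pool.Agent.H24.SG.Cube
import Pool.Agent.H24.SG.Defs

/-!
# The density of the space of the odd continuous functions on the cube `[-1, 1]^Γ` is `#Γ`
-/

set_option autoImplicit false

open Set Filter Topology Cardinal

universe u

namespace Pool.Agent.H24.SG

variable {Γ : Type u}

/-- the odd part -/
noncomputable def oddPart (f : C(Cube Γ, ℝ)) : OddC Γ :=
  ⟨(1/2:ℝ) • (f - f.comp ⟨neg, continuous_neg⟩), by
    intro k
    simp only [ContinuousMap.smul_apply, ContinuousMap.sub_apply, ContinuousMap.comp_apply,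
      ContinuousMap.coe_mk, neg_neg, smul_eq_mul]
    ring⟩

lemma oddPart_apply (f : C(Cube Γ, ℝ)) (k : Cube Γ) :
    (oddPart f).1 k = (1/2) * (f k - f (neg k)) := rfl

lemma norm_oddPart_sub (f : C(Cube Γ, ℝ)) (x : OddC Γ) {ε : ℝ} (hε : 0 ≤ ε)
    (h : ∀ k, |f k - x.1 k| ≤ ε) : ‖oddPart f - x‖ ≤ ε := by
  change ‖(oddPart f).1 - x.1‖ ≤ ε
  rw [ContinuousMap.norm_le _ hε]
  intro k
  rw [ContinuousMap.sub_apply, oddPart_apply, Real.norm_eq_abs]
  have h1 := h k
  have h2 := h (neg k)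
  rw [x.2 k] at h2
  rw [abs_le] at h1 h2 ⊢
  constructor <;> linarith

/-- restriction to finitely many coordinates -/
def res (J : Finset Γ) : C(Cube Γ, J → Icc (-1:ℝ) 1) :=
  ⟨fun k j => k j, continuous_pi fun j => continuous_apply (j : Γ)⟩

/-- extension by zero -/
noncomputable def ext (J : Finset Γ) : C(J → Icc (-1:ℝ) 1, Cube Γ) :=
  open Classical in
  ⟨fun q i => if h : i ∈ J then q ⟨i, h⟩ else ⟨0, by norm_num⟩, continuous_pi fun i => by
    by_cases h : i ∈ J
    · simp only [h, dite_true]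
      exact continuous_apply _
    · simp only [h, dite_false]
      exact continuous_const⟩

lemma ext_res (J : Finset Γ) (k : Cube Γ) (i : Γ) (hi : i ∈ J) : ext J (res J k) i = k i := by
  simp only [ext, ContinuousMap.coe_mk, dif_pos hi]
  rfl

lemma exists_dense [Infinite Γ] : ∃ D : Set (OddC Γ), Dense D ∧ #D ≤ #Γ := by
  let d : (J : Finset Γ) → ℕ → C(J → Icc (-1:ℝ) 1, ℝ) := fun J => TopologicalSpace.denseSeq _
  refine ⟨range fun p : Finset Γ × ℕ => oddPart ((d p.1 p.2).comp (res p.1)), ?_, ?_⟩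
  · rw [Metric.dense_iff]
    intro x ε hε
    obtain ⟨J, hJ⟩ := exists_finset x.1 (ε := ε / 3) (by positivity)
    obtain ⟨n, hn⟩ := (TopologicalSpace.denseRange_denseSeq C(J → Icc (-1:ℝ) 1, ℝ)).exists_dist_lt
      (x.1.comp (ext J)) (ε := ε / 3) (by positivity)
    refine ⟨_, ?_, ⟨(J, n), rfl⟩⟩
    rw [Metric.mem_ball, dist_eq_norm]
    refine lt_of_le_of_lt (norm_oddPart_sub _ x (ε := ε / 3 + ε / 3) (by positivity) ?_)
      (by linarith)
    intro k
    have h1 : |x.1 (ext J (res J k)) - x.1 k| < ε / 3 := hJ _ _ fun i hi => ext_res J k i hi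
    have h2 := lt_of_le_of_lt (ContinuousMap.dist_apply_le_dist (f := x.1.comp (ext J))
      (g := TopologicalSpace.denseSeq C(J → Icc (-1:ℝ) 1, ℝ) n) (res J k)) hn
    rw [Real.dist_eq] at h2
    change |TopologicalSpace.denseSeq C(J → Icc (-1:ℝ) 1, ℝ) n (res J k) - x.1 k| ≤ _
    change |x.1 (ext J (res J k)) - TopologicalSpace.denseSeq C(J → Icc (-1:ℝ) 1, ℝ) n (res J k)|
      < _ at h2
    rw [abs_lt] at h1 h2
    rw [abs_le]
    constructor <;> linarith
  · refine (mk_range_le).trans ?_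
    rw [mk_prod, lift_uzero, mk_finset_of_infinite, mk_nat, lift_aleph0]
    exact (mul_aleph0_eq (aleph0_le_mk Γ)).le

/-- the coordinates -/
def coord (i : Γ) : OddC Γ :=
  ⟨⟨fun k => (k i : ℝ), continuous_subtype_val.comp (continuous_apply i)⟩, fun _ => rfl⟩

lemma norm_coord (i : Γ) : ‖coord i‖ = 1 := by
  change ‖(coord i).1‖ = 1
  apply le_antisymm
  · rw [ContinuousMap.norm_le _ zero_le_one]
    intro k
    exact abs_le.2 (k i).2
  · have := (coord i).1.norm_coe_le_norm fun _ => ⟨1, by norm_num⟩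
    refine le_trans ?_ this
    change (1:ℝ) ≤ ‖(1:ℝ)‖
    simp

lemma one_le_dist {i j : Γ} (hij : i ≠ j) : 1 ≤ dist (coord i) (coord j) := by
  classical
  rw [dist_eq_norm]
  change 1 ≤ ‖(coord i).1 - (coord j).1‖
  refine le_trans ?_ (((coord i).1 - (coord j).1).norm_coe_le_norm
    (fun l => if l = i then ⟨1, by norm_num⟩ else ⟨0, by norm_num⟩))
  change 1 ≤ ‖(((if i = i then (⟨1, by norm_num⟩ : Icc (-1:ℝ) 1) else ⟨0, by norm_num⟩ :
    Icc (-1:ℝ) 1) : ℝ) - ((if j = i then (⟨1, by norm_num⟩ : Icc (-1:ℝ) 1) else ⟨0, by norm_num⟩ :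
    Icc (-1:ℝ) 1) : ℝ))‖
  rw [if_pos rfl, if_neg (Ne.symm hij)]
  simp

lemma le_of_dense {D : Set (OddC Γ)} (hD : Dense D) : #Γ ≤ #D := by
  have hd : ∀ i : Γ, ∃ d : D, dist (coord i) d < 1 / 2 := by
    intro i
    obtain ⟨d, hd, hlt⟩ := hD.exists_dist_lt (coord i) (by norm_num : (0 : ℝ) < 1 / 2)
    exact ⟨⟨d, hd⟩, hlt⟩
  choose d hd using hd
  refine mk_le_of_injective (f := d) ?_
  intro i j hij
  by_contra hne
  have h1 := one_le_dist hne
  have h2 := hd i
  have h3 := hd j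
  rw [← hij, dist_comm] at h3
  have h4 := dist_triangle (coord i) (d i : OddC Γ) (coord j)
  linarith

/-- The density of the space of the odd continuous functions on `[-1, 1]^Γ` is `#Γ`. -/
theorem density_oddC [Infinite Γ] : density (OddC Γ) = #Γ := by
  apply le_antisymm
  · obtain ⟨D, hD, h⟩ := exists_dense (Γ := Γ)
    exact (density_le hD).trans h
  · exact le_density fun D hD => le_of_dense hD

end Pool.Agent.H24.SG
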