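import Mathlib
import Pool.Agent.H24.SG.Defs

/-!
# Extension from dimension two to dimension three: continuum many separated unit vectors

The construction of the library (`MP_47ceec_an.DensityContinuum`), in dimension three.
-/

set_option autoImplicit false

open Set Cardinal

open scoped RealInnerProductSpace

universe u

namespace Pool.Agent.H24.SG

variable {X : Type u} [NormedAddCommGroup X] [NormedSpace ℝ X]

lemma exists_plane (hX : Disp 2 3 X) : Nonempty (ℂ →ₗᵢ[ℝ] X) := by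
  obtain ⟨g, -⟩ := hX ℂ ⊥ ⟨0, by
    intro x
    have : x = 0 := Subsingleton.elim _ _
    rw [this]
    simp⟩ (by simp) (by rw [Complex.finrank_real_complex]; norm_num)
  exact ⟨g⟩

/-- the plane with the norm of `ℓ₁` -/
abbrev BB := WithLp 1 (ℝ × ℝ)

/-- the extension space -/
noncomputable def Fs (u : ℂ) : Submodule ℝ (ℂ × BB) where
  carrier := {p | p.2.fst = ⟪u, p.1⟫}
  add_mem' := by
    rintro a b h1 h3
    change a.2.fst + b.2.fst = ⟪u, a.1 + b.1⟫
    rw [Set.mem_ofPred_eq] at h1 h3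
    rw [h1, h3, inner_add_right]
  zero_mem' := by
    change (0 : ℝ) = ⟪u, (0 : ℂ)⟫
    rw [inner_zero_right]
  smul_mem' := by
    rintro c a h1
    rw [Set.mem_ofPred_eq] at h1
    change c * a.2.fst = ⟪u, c • a.1⟫
    rw [h1, inner_smul_right]

lemma finrank_Fs (u : ℂ) : Module.finrank ℝ (Fs u) ≤ 3 := by
  let L : Fs u →ₗ[ℝ] ℂ × ℝ :=
    { toFun := fun p => (p.1.1, p.1.2.snd)
      map_add' := fun _ _ => rfl
      map_smul' := fun _ _ => rfl }
  have hL : Function.Injective L := by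
    intro p q h
    have h1 : p.1.1 = q.1.1 := congrArg (fun z : ℂ × ℝ => z.1) h
    have h2 : p.1.2.snd = q.1.2.snd := congrArg (fun z : ℂ × ℝ => z.2) h
    have h3 : p.1.2.fst = q.1.2.fst := by
      have e1 : p.1.2.fst = ⟪u, p.1.1⟫ := p.2
      have e2 : q.1.2.fst = ⟪u, q.1.1⟫ := q.2
      rw [e1, e2, h1]
    apply Subtype.ext
    refine Prod.ext h1 ?_
    exact (WithLp.ofLp_injective 1) (Prod.ext h3 h2)
  refine (LinearMap.finrank_le_finrank_of_injective hL).trans ?_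
  rw [Module.finrank_prod, Complex.finrank_real_complex, Module.finrank_self]

/-- elements of the extension space -/
noncomputable def el (u : ℂ) (e : ℂ) (t : ℝ) : Fs u :=
  ⟨(e, (WithLp.toLp 1 (⟪u, e⟫, t) : BB)), rfl⟩

lemma norm_el (u e : ℂ) (t : ℝ) : ‖el u e t‖ = max ‖e‖ (‖⟪u, e⟫‖ + ‖t‖) := by
  change ‖(e, (WithLp.toLp 1 (⟪u, e⟫, t) : BB))‖ = _
  rw [Prod.norm_def, WithLp.prod_norm_eq_of_L1]
  rfl

lemma el_add (u e e' : ℂ) (t t' : ℝ) : el u e t + el u e' t' = el u (e + e') (t + t') := by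
  apply Subtype.ext
  refine Prod.ext rfl ?_
  change (WithLp.toLp 1 (⟪u, e⟫, t) : BB) + WithLp.toLp 1 (⟪u, e'⟫, t') = _
  rw [← WithLp.toLp_add, Prod.mk_add_mk, ← inner_add_right]
  rfl

lemma el_smul (u e : ℂ) (t c : ℝ) : c • el u e t = el u (c • e) (c * t) := by
  apply Subtype.ext
  refine Prod.ext rfl ?_
  change c • (WithLp.toLp 1 (⟪u, e⟫, t) : BB) = _
  rw [← WithLp.toLp_smul, Prod.smul_mk]
  change _ = (WithLp.toLp 1 (⟪u, c • e⟫, c * t) : BB)
  rw [inner_smul_right]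
  rfl

/-- the inclusion of the plane -/
noncomputable def inc (u : ℂ) (hu : ‖u‖ = 1) : ℂ →ₗᵢ[ℝ] Fs u where
  toFun e := el u e 0
  map_add' := by
    intro a b
    rw [el_add, add_zero]
  map_smul' := by
    intro c a
    rw [RingHom.id_apply, el_smul, mul_zero]
  norm_map' := by
    intro e
    change ‖el u e 0‖ = ‖e‖
    rw [norm_el, norm_zero, add_zero, max_eq_left]
    calc ‖⟪u, e⟫‖ ≤ ‖u‖ * ‖e‖ := norm_inner_le_norm u e
      _ = ‖e‖ := by rw [hu, one_mul]

lemma exists_y (hX : Disp 2 3 X) (j : ℂ →ₗᵢ[ℝ] X) (u : ℂ) (hu : ‖u‖ = 1) :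
    ∃ y : X, ‖y‖ = 1 ∧ ∀ e : ℂ, ‖j e + y‖ = max ‖e‖ (‖⟪u, e⟫‖ + 1) := by
  obtain ⟨g, hg⟩ := hX.extend (inc u hu) j (by rw [Complex.finrank_real_complex]) (finrank_Fs u)
  refine ⟨g (el u 0 1), ?_, fun e => ?_⟩
  · rw [g.norm_map, norm_el]
    simp
  · rw [← hg e, ← map_add, g.norm_map]
    change ‖el u e 0 + el u 0 1‖ = _
    rw [el_add, norm_el, add_zero, zero_add, norm_one]

/-- a family of unit vectors in the plane -/
noncomputable def v (s : ℝ) : ℂ := ((Real.sqrt (1 + s ^ 2))⁻¹ : ℝ) • ⟨1, s⟩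

lemma v_norm (s : ℝ) : ‖v s‖ = 1 := by
  have h1 : (0 : ℝ) < 1 + s ^ 2 := by positivity
  have h2 : ‖(⟨1, s⟩ : ℂ)‖ = Real.sqrt (1 + s ^ 2) := by
    rw [Complex.norm_def, Complex.normSq_mk]
    congr 1
    ring
  unfold v
  rw [norm_smul, h2, norm_inv, Real.norm_of_nonneg (Real.sqrt_nonneg _)]
  exact inv_mul_cancel₀ (Real.sqrt_pos.2 h1).ne'

lemma v_inner (s t : ℝ) :
    ⟪v s, v t⟫ = (Real.sqrt (1 + s ^ 2))⁻¹ * (Real.sqrt (1 + t ^ 2))⁻¹ * (1 + s * t) := by
  unfold v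
  rw [real_inner_smul_left, real_inner_smul_right, Complex.inner]
  simp
  ring

lemma v_lt (s t : ℝ) (hst : s ≠ t) : ‖⟪v s, v t⟫‖ < 1 := by
  have h1 : (0 : ℝ) < 1 + s ^ 2 := by positivity
  have h2 : (0 : ℝ) < 1 + t ^ 2 := by positivity
  have h3 := Real.sqrt_pos.2 h1
  have h4 := Real.sqrt_pos.2 h2
  have h5 : ⟪v s, v t⟫ ^ 2 < 1 := by
    rw [v_inner]
    have e1 : ((Real.sqrt (1 + s ^ 2))⁻¹ * (Real.sqrt (1 + t ^ 2))⁻¹ * (1 + s * t)) ^ 2
        = (1 + s * t) ^ 2 / ((1 + s ^ 2) * (1 + t ^ 2)) := by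
      rw [mul_pow, mul_pow, inv_pow, inv_pow, Real.sq_sqrt h1.le, Real.sq_sqrt h2.le]
      field_simp
    rw [e1, div_lt_one (by positivity)]
    have h6 : 0 < (s - t) ^ 2 := by
      have : s - t ≠ 0 := sub_ne_zero.2 hst
      positivity
    nlinarith
  rw [Real.norm_eq_abs]
  exact (sq_lt_one_iff_abs_lt_one _).1 h5

/-- If the isometric embeddings of the two-dimensional spaces extend to the three-dimensional
spaces, then there are continuum many unit vectors with mutual distances at least one. -/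
theorem exists_family (hX : Disp 2 3 X) :
    ∃ y : ℝ → X, (∀ s, ‖y s‖ = 1) ∧ ∀ s t, s ≠ t → 1 ≤ ‖y s - y t‖ := by
  obtain ⟨j⟩ := exists_plane hX
  choose y hy1 hy using fun s : ℝ => exists_y hX j (v s) (v_norm s)
  refine ⟨y, hy1, fun s t hst => ?_⟩
  set c := ‖⟪v t, v s⟫‖ with hc
  have hc1 : c < 1 := v_lt t s (Ne.symm hst)
  have hc0 : 0 ≤ c := norm_nonneg _
  set r := (1 - c)⁻¹ with hr
  have h1c : 0 < 1 - c := by linarith
  have hr1 : 1 ≤ r := by
    rw [hr]
    exact (one_le_inv₀ h1c).2 (by linarith)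
  have hrc : r * c + 1 = r := by
    rw [hr]
    field_simp
    ring
  have h1 : r + 1 ≤ ‖j (r • v s) + y s‖ := by
    rw [hy]
    refine le_trans ?_ (le_max_right _ _)
    rw [real_inner_smul_right, real_inner_self_eq_norm_sq, v_norm, one_pow, mul_one,
      Real.norm_of_nonneg (by linarith)]
  have h2 : ‖j (r • v s) + y t‖ = r := by
    rw [hy, norm_smul, v_norm, mul_one, Real.norm_of_nonneg (by linarith : 0 ≤ r)]
    apply max_eq_left
    rw [real_inner_smul_right, norm_mul, Real.norm_of_nonneg (by linarith : 0 ≤ r), ← hc, hrc]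
  have h4 : ‖j (r • v s) + y s‖ ≤ ‖j (r • v s) + y t‖ + ‖y s - y t‖ := by
    have : j (r • v s) + y s = (j (r • v s) + y t) + (y s - y t) := by abel
    calc ‖j (r • v s) + y s‖ = ‖(j (r • v s) + y t) + (y s - y t)‖ := by rw [← this]
      _ ≤ _ := norm_add_le _ _
  linarith

omit [NormedSpace ℝ X] in
lemma continuum_le_of_family {y : ℝ → X} (hy : ∀ s t, s ≠ t → 1 ≤ ‖y s - y t‖) :
    continuum.{u} ≤ density X := by
  refine le_density fun D hD => ?_
  have hd : ∀ s : ℝ, ∃ d : D, ‖y s - d‖ < 1 / 2 := by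
    intro s
    obtain ⟨d, hd, hlt⟩ := hD.exists_dist_lt (y s) (by norm_num : (0 : ℝ) < 1 / 2)
    exact ⟨⟨d, hd⟩, by rwa [← dist_eq_norm]⟩
  choose d hd using hd
  have hinj : Function.Injective d := by
    intro s t hst
    by_contra hne
    have h1 := hy s t hne
    have h2 : ‖y s - y t‖ ≤ ‖y s - d s‖ + ‖y t - d t‖ := by
      have : y s - y t = (y s - d s) - (y t - d t) := by rw [hst]; abel
      rw [this]
      exact norm_sub_le _ _
    have h3 := hd s
    have h4 := hd t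
    linarith
  have h5 := Cardinal.lift_mk_le_lift_mk_of_injective hinj
  rw [Cardinal.mk_real, Cardinal.lift_continuum, Cardinal.lift_uzero] at h5
  exact h5

end Pool.Agent.H24.SG
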