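import Mathlib
import Pool.Agent.H24.SG.Density

/-!
# The odd continuous functions on a cube: extension from dimension one
-/

set_option autoImplicit false

open Set Cardinal

universe u

namespace Pool.Agent.H24.SG

variable {Γ : Type u}

/-- For an uncountable set `Γ` every isometric embedding of an at most one-dimensional space `E` in
the space of the odd continuous functions on `[-1, 1]^Γ` extends to every separable space which
contains `E`. -/
theorem dispSep_oddC [Uncountable Γ] : DispSep 1 (OddC Γ) := by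
  intro F _ _ _ E _ f hE
  obtain ⟨v, hv⟩ := finrank_le_one_iff.1 hE
  rcases eq_or_ne v 0 with rfl | hv0
  · have h0 : ∀ w : E, w = 0 := by
      intro w
      obtain ⟨c, hc⟩ := hv w
      rw [← hc, smul_zero]
    obtain ⟨g⟩ : Nonempty (F →ₗᵢ[ℝ] OddC Γ) := by
      rcases subsingleton_or_nontrivial F with hF | hF
      · exact ⟨⟨0, fun x => by rw [Subsingleton.elim x 0]; simp⟩⟩
      · obtain ⟨x₀, hx₀⟩ := exists_norm_eq F (zero_le_one : (0:ℝ) ≤ 1)
        obtain ⟨i⟩ : Nonempty Γ := inferInstance
        obtain ⟨g, -⟩ := extend_one (coord i) (norm_coord i) F x₀ hx₀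
        exact ⟨g⟩
    refine ⟨g, fun w => ?_⟩
    rw [h0 w, Submodule.coe_zero, g.map_zero, f.map_zero]
  · have hn : ‖v‖ ≠ 0 := norm_ne_zero_iff.2 hv0
    have hn' : ‖(v:F)‖ = ‖v‖ := rfl
    obtain ⟨g, hg⟩ := extend_one (f (‖v‖⁻¹ • v)) (by
      rw [f.norm_map, norm_smul, norm_inv, norm_norm, inv_mul_cancel₀ hn]) F (‖v‖⁻¹ • (v:F)) (by
      rw [norm_smul, norm_inv, norm_norm, hn', inv_mul_cancel₀ hn])
    rw [map_smul, map_smul] at hg
    have hgv : g (v:F) = f v := by
      have h1 := congrArg (fun z => ‖v‖ • z) hg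
      simpa only [smul_smul, mul_inv_cancel₀ hn, one_smul] using h1
    refine ⟨g, fun w => ?_⟩
    obtain ⟨c, rfl⟩ := hv w
    rw [Submodule.coe_smul, map_smul, map_smul, hgv]

/-- Every uncountable cardinal is the density of a Banach space in which the isometric embeddings
of the at most one-dimensional spaces extend to all separable spaces. -/
theorem exists_space (κ : Cardinal.{u}) (hκ : ℵ_ 1 ≤ κ) :
    ∃ (X : Type u) (_ : NormedAddCommGroup X) (_ : NormedSpace ℝ X) (_ : CompleteSpace X),
      DispSep 1 X ∧ density X = κ := by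
  have h1 : #κ.out = κ := mk_out κ
  have h2 : Uncountable κ.out := by
    rw [← aleph0_lt_mk_iff, h1]
    exact lt_of_lt_of_le aleph0_lt_aleph_one hκ
  exact ⟨OddC κ.out, inferInstance, inferInstance, inferInstance, dispSep_oddC, by
    rw [density_oddC, h1]⟩

end Pool.Agent.H24.SG
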