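import Mathlib
import Pool.Agent.H24.SG.Defs

/-!
# Extension from dimension one to dimension two: the space is not separable
-/

set_option autoImplicit false

open Set Filter Topology Cardinal

universe u

namespace Pool.Agent.H24.SG

variable {X : Type u} [NormedAddCommGroup X] [NormedSpace ℝ X]

lemma finrank_L1 : Module.finrank ℝ (WithLp 1 (ℝ × ℝ)) = 2 := by
  rw [(WithLp.linearEquiv 1 ℝ (ℝ × ℝ)).finrank_eq, Module.finrank_prod, Module.finrank_self]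

lemma exists_unit (hX : Disp 1 2 X) : ∃ x : X, ‖x‖ = 1 := by
  obtain ⟨g, -⟩ := hX ℝ ⊥ ⟨0, by
    intro x
    have : x = 0 := Subsingleton.elim _ _
    rw [this]
    simp⟩ (by simp) (by simp)
  exact ⟨g 1, by rw [g.norm_map, norm_one]⟩

/-- the inclusion of the line -/
noncomputable def incL : ℝ →ₗᵢ[ℝ] WithLp 1 (ℝ × ℝ) where
  toFun a := WithLp.toLp 1 (a, 0)
  map_add' a b := by
    rw [← WithLp.toLp_add, Prod.mk_add_mk, add_zero]
  map_smul' c a := by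
    rw [← WithLp.toLp_smul, Prod.smul_mk, smul_zero]
    rfl
  norm_map' a := by
    change ‖(WithLp.toLp 1 (a, (0:ℝ)) : WithLp 1 (ℝ × ℝ))‖ = ‖a‖
    rw [WithLp.prod_norm_eq_of_L1]
    simp

lemma exists_l1 (hX : Disp 1 2 X) (x : X) (hx : ‖x‖ = 1) :
    ∃ y : X, ∀ h : ℝ, ‖x + h • y‖ = 1 + |h| := by
  obtain ⟨g, hg⟩ := hX.extend incL (LinearIsometry.toSpanSingleton ℝ X hx) (by simp)
    finrank_L1.le
  refine ⟨g (WithLp.toLp 1 (0, 1)), fun h => ?_⟩
  have h1 : g (incL 1) = x := by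
    rw [hg]
    simp
  rw [← h1, ← map_smul, ← map_add, g.norm_map]
  change ‖(WithLp.toLp 1 ((1:ℝ), (0:ℝ)) : WithLp 1 (ℝ × ℝ)) + h • WithLp.toLp 1 (0, 1)‖ = _
  rw [← WithLp.toLp_smul, ← WithLp.toLp_add, WithLp.prod_norm_eq_of_L1]
  simp

lemma corner_false (x₀ d : X) (hx₀ : ‖x₀‖ = 1) {ε : ℝ} (hε : 0 < ε)
    (H : ∀ z : X, ‖z‖ = 1 → dist z x₀ < ε → ∀ h : ℝ, 0 ≤ h →
      2 + (3/2) * h ≤ ‖z + h • d‖ + ‖z - h • d‖) : False := by
  -- a neighbourhood of the parameter `0`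
  have hc : ContinuousAt (fun t : ℝ => ‖x₀ + t • d‖) 0 := by fun_prop
  have hc0 : ‖x₀ + (0:ℝ) • d‖ = 1 := by rw [zero_smul, add_zero, hx₀]
  have hpos : ∀ᶠ t : ℝ in 𝓝 0, 0 < ‖x₀ + t • d‖ :=
    hc.eventually (lt_mem_nhds (by change 0 < ‖x₀ + (0:ℝ) • d‖; rw [hc0]; exact one_pos))
  have hc2 : ContinuousAt (fun t : ℝ => ‖x₀ + t • d‖⁻¹ • (x₀ + t • d)) 0 := by
    refine (hc.inv₀ (by rw [hc0]; exact one_ne_zero)).smul ?_
    fun_prop
  have hdist : ∀ᶠ t : ℝ in 𝓝 0, dist (‖x₀ + t • d‖⁻¹ • (x₀ + t • d)) x₀ < ε := by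
    refine hc2.eventually (?_ : ∀ᶠ z in 𝓝 (‖x₀ + (0:ℝ) • d‖⁻¹ • (x₀ + (0:ℝ) • d)), dist z x₀ < ε)
    have e : ‖x₀ + (0:ℝ) • d‖⁻¹ • (x₀ + (0:ℝ) • d) = x₀ := by
      rw [hc0, zero_smul, add_zero, inv_one, one_smul]
    rw [e]
    exact Metric.ball_mem_nhds x₀ hε
  obtain ⟨δ, hδ, hδ2⟩ := Metric.eventually_nhds_iff.1 (hpos.and hdist)
  have key : ∀ t h : ℝ, |t| < δ → 0 ≤ h →
      2 * ‖x₀ + t • d‖ + (3/2) * h ≤ ‖x₀ + (t + h) • d‖ + ‖x₀ + (t - h) • d‖ := by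
    intro t h ht hh
    obtain ⟨h1, h2⟩ := hδ2 (y := t) (by rwa [Real.dist_eq, sub_zero])
    set r := ‖x₀ + t • d‖ with hr
    have h3 := H (r⁻¹ • (x₀ + t • d)) (by
      rw [norm_smul, norm_inv, norm_norm]
      exact inv_mul_cancel₀ h1.ne') h2 (h / r) (div_nonneg hh h1.le)
    have e1 : r⁻¹ • (x₀ + t • d) + (h / r) • d = r⁻¹ • (x₀ + (t + h) • d) := by
      rw [div_eq_inv_mul]
      module
    have e2 : r⁻¹ • (x₀ + t • d) - (h / r) • d = r⁻¹ • (x₀ + (t - h) • d) := by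
      rw [div_eq_inv_mul]
      module
    rw [e1, e2, norm_smul, norm_smul, norm_inv, Real.norm_of_nonneg h1.le] at h3
    have h4 := mul_le_mul_of_nonneg_left h3 h1.le
    have e3 : r * (2 + 3 / 2 * (h / r)) = 2 * r + (3/2) * h := by
      field_simp
    have e4 : r * (r⁻¹ * ‖x₀ + (t + h) • d‖ + r⁻¹ * ‖x₀ + (t - h) • d‖) =
        ‖x₀ + (t + h) • d‖ + ‖x₀ + (t - h) • d‖ := by
      field_simp
    rwa [e3, e4] at h4
  obtain ⟨N, hN⟩ := exists_nat_gt (2 * ‖d‖)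
  set η : ℝ := δ / (N + 1) with hη
  have hη0 : 0 < η := by positivity
  have hstep : ∀ i : ℕ, i ≤ N → |(i:ℝ) * η| < δ := by
    intro i hi
    rw [abs_of_nonneg (by positivity), hη]
    have : (i:ℝ) < N + 1 := by
      have : (i:ℝ) ≤ N := by exact_mod_cast hi
      linarith
    calc (i:ℝ) * (δ / (N + 1)) < (N + 1) * (δ / (N + 1)) := by gcongr
      _ = δ := by field_simp
  have hind : ∀ i : ℕ, i ≤ N →
      ‖x₀ + (1 * η) • d‖ - ‖x₀ + (0 * η) • d‖ + i * (3/2) * η ≤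
        ‖x₀ + (((i:ℝ) + 1) * η) • d‖ - ‖x₀ + ((i:ℝ) * η) • d‖ := by
    intro i
    induction i with
    | zero => intro _; simp
    | succ i ih =>
      intro hi
      have h1 := ih (by omega)
      have h2 := key (((i + 1 : ℕ) : ℝ) * η) η (hstep (i + 1) hi) hη0.le
      have e1 : ((i + 1 : ℕ) : ℝ) * η + η = (((i + 1 : ℕ) : ℝ) + 1) * η := by ring
      have e2 : ((i + 1 : ℕ) : ℝ) * η - η = (i:ℝ) * η := by push_cast; ring
      rw [e1, e2] at h2
      push_cast at h2 ⊢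
      linarith
  have h1 := hind N le_rfl
  have h2 : ‖x₀ + (((N:ℝ) + 1) * η) • d‖ - ‖x₀ + ((N:ℝ) * η) • d‖ ≤ η * ‖d‖ := by
    have e : x₀ + (((N:ℝ) + 1) * η) • d = (x₀ + ((N:ℝ) * η) • d) + η • d := by module
    rw [e]
    have := norm_add_le (x₀ + ((N:ℝ) * η) • d) (η • d)
    rw [norm_smul, Real.norm_of_nonneg hη0.le] at this
    linarith
  have h3 : -(η * ‖d‖) ≤ ‖x₀ + (1 * η) • d‖ - ‖x₀ + (0 * η) • d‖ := by
    have e : x₀ + (0 * η) • d = (x₀ + (1 * η) • d) - η • d := by module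
    rw [e]
    have := norm_sub_le (x₀ + (1 * η) • d) (η • d)
    rw [norm_smul, Real.norm_of_nonneg hη0.le] at this
    linarith
  have h4 : (N:ℝ) * (3/2) * η ≤ 2 * ‖d‖ * η := by linarith
  have h5 : (N:ℝ) * (3/2) ≤ 2 * ‖d‖ := le_of_mul_le_mul_right h4 hη0
  have h6 : (0:ℝ) ≤ N := Nat.cast_nonneg N
  linarith

theorem not_countable_of_dense [CompleteSpace X] (hX : Disp 1 2 X) (D : Set X) (hD : Dense D) :
    ¬ D.Countable := by
  intro hcount
  obtain ⟨x₁, hx₁⟩ := exists_unit hX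
  have : Countable D := hcount.to_subtype
  have : CompleteSpace (Metric.sphere (0:X) 1) :=
    Metric.isClosed_sphere.completeSpace_coe
  have : Nonempty (Metric.sphere (0:X) 1) := ⟨⟨x₁, by simpa using hx₁⟩⟩
  let A : D → Set (Metric.sphere (0:X) 1) := fun d =>
    {x | ∀ h : ℝ, 0 ≤ h → 2 + (3/2) * h ≤ ‖(x:X) + h • (d:X)‖ + ‖(x:X) - h • (d:X)‖}
  have hclosed : ∀ d, IsClosed (A d) := by
    intro d
    have : A d = ⋂ (h : ℝ) (_ : 0 ≤ h),
        {x : Metric.sphere (0:X) 1 | 2 + (3/2) * h ≤ ‖(x:X) + h • (d:X)‖ + ‖(x:X) - h • (d:X)‖} := by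
      ext x
      simp [A]
    rw [this]
    refine isClosed_iInter fun h => isClosed_iInter fun _ => isClosed_le ?_ ?_ <;> fun_prop
  have hcover : ⋃ d, A d = Set.univ := by
    rw [eq_univ_iff_forall]
    intro x
    have hx : ‖(x:X)‖ = 1 := by simp
    obtain ⟨y, hy⟩ := exists_l1 hX x hx
    obtain ⟨d, hd, hlt⟩ := hD.exists_dist_lt y (by norm_num : (0:ℝ) < 1/4)
    refine mem_iUnion.2 ⟨⟨d, hd⟩, fun h hh => ?_⟩
    rw [dist_eq_norm] at hlt
    have h1 : 1 + h ≤ ‖(x:X) + h • d‖ + h * (1/4) := by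
      have e : (x:X) + h • y = ((x:X) + h • d) + h • (y - d) := by module
      have h2 := norm_add_le ((x:X) + h • d) (h • (y - d))
      rw [← e, hy, norm_smul, Real.norm_of_nonneg hh, abs_of_nonneg hh] at h2
      have h3 := mul_le_mul_of_nonneg_left hlt.le hh
      linarith
    have h2 : 1 + h ≤ ‖(x:X) - h • d‖ + h * (1/4) := by
      have e : (x:X) + (-h) • y = ((x:X) - h • d) - h • (y - d) := by module
      have h2 := norm_sub_le ((x:X) - h • d) (h • (y - d))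
      rw [← e, hy, norm_smul, Real.norm_of_nonneg hh, abs_neg, abs_of_nonneg hh] at h2
      have h3 := mul_le_mul_of_nonneg_left hlt.le hh
      linarith
    change 2 + (3/2) * h ≤ ‖(x:X) + h • d‖ + ‖(x:X) - h • d‖
    linarith
  obtain ⟨d, x, hx⟩ := nonempty_interior_of_iUnion_of_closed hclosed hcover
  obtain ⟨ε, hε, hball⟩ := Metric.isOpen_iff.1 isOpen_interior x hx
  refine corner_false (x:X) (d:X) (by simp) hε ?_
  intro z hz hdist h hh
  have h1 : (⟨z, by simpa using hz⟩ : Metric.sphere (0:X) 1) ∈ A d :=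
    interior_subset (hball (by simpa [Metric.mem_ball, Subtype.dist_eq] using hdist))
  exact h1 h hh

/-- A Banach space in which the isometric embeddings of the one-dimensional spaces extend to the
two-dimensional spaces has density at least `ℵ₁`. -/
theorem aleph_one_le_density [CompleteSpace X] (hX : Disp 1 2 X) : ℵ_ 1 ≤ density X := by
  refine le_density fun D hD => ?_
  have h1 := not_countable_of_dense hX D hD
  rw [← succ_aleph0, Order.succ_le_iff]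
  by_contra h
  rw [not_lt, le_aleph0_iff_set_countable] at h
  exact h1 h

end Pool.Agent.H24.SG
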